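import Pool.Agent.Q66.DS.Stm

/-! Project DS: job COMB. -/

set_option autoImplicit false

open Pool.Agent.Q66.DS

namespace Pool.Agent.Q125.DS

theorem exp_le_three {x : ℝ} (hx : x ≤ 1) : Real.exp x ≤ 3 := by
  have h1 : Real.exp x ≤ Real.exp 1 := Real.exp_le_exp.2 hx
  have h2 := Real.exp_one_lt_d9
  linarith

theorem sN_pos (N : ℕ) (i : ℤ) : 0 < sN N i := Real.exp_pos _

theorem sN_add (N : ℕ) (i p : ℤ) : sN N (i + p) = sN N i * sN N p := by
  unfold sN
  rw [← Real.exp_add]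
  congr 1
  push_cast
  ring

theorem sN_neg (N : ℕ) (p : ℤ) : sN N (-p) = (sN N p)⁻¹ := by
  unfold sN
  rw [← Real.exp_neg]
  congr 1
  push_cast
  ring

theorem sN_le_three {N : ℕ} {p : ℤ} (hp : p ≤ N) : sN N p ≤ 3 := by
  apply exp_le_three
  rcases Nat.eq_zero_or_pos N with h | h
  · rw [h, Nat.cast_zero, div_zero]
    norm_num
  · have hN : (0 : ℝ) < N := by exact_mod_cast h
    rw [div_le_one hN]
    exact_mod_cast hp

/-- `|exp x - 1| ≥ |x|/2` for `x ≥ -1` -/
theorem half_le_abs_exp_sub_one {x : ℝ} (hx : -1 ≤ x) : |x| / 2 ≤ |Real.exp x - 1| := by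
  rcases le_total 0 x with h | h
  · have h1 := Real.add_one_le_exp x
    rw [abs_of_nonneg h, abs_of_nonneg (by linarith)]
    linarith
  · have h1 := Real.add_one_le_exp (-x)
    have h2 : Real.exp x * Real.exp (-x) = 1 := by
      rw [← Real.exp_add, add_neg_cancel, Real.exp_zero]
    have h3 : Real.exp x ≤ 1 := Real.exp_le_one_iff.2 h
    have h4 : 0 < Real.exp x := Real.exp_pos x
    rw [abs_of_nonpos h, abs_of_nonpos (by linarith)]
    nlinarith

theorem mem_Dp {J : Finset ℤ} {p i : ℤ} : i ∈ Dp J p ↔ i ∈ J ∧ i + p ∈ J := Finset.mem_filter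

theorem Dp_card_le {N : ℕ} {J : Finset ℤ} (hJ : J ⊆ Finset.Ico 0 (N : ℤ)) (p : ℤ) :
    (Dp J p).card ≤ N := by
  have h1 : Dp J p ⊆ Finset.Ico 0 (N : ℤ) := (Finset.filter_subset _ _).trans hJ
  have h2 := Finset.card_le_card h1
  rwa [Int.card_Ico, sub_zero, Int.toNat_natCast] at h2

/-- the popular slope -/
theorem popular {N : ℕ} {J : Finset ℤ} (hJ : J ⊆ Finset.Ico 0 (N : ℤ)) (y : ℤ → ℝ) (K : ℝ) (p : ℤ) :
    ∃ k : ℝ, (((Dp J p ×ˢ Dp J p).filter fun q => |Ph N y q.1 p - Ph N y q.2 p| ≤ K).card : ℝ) ≤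
      N * (((Dp J p).filter fun i => |Ph N y i p - k| ≤ K).card : ℝ) := by
  classical
  rcases (Dp J p).eq_empty_or_nonempty with he | hne
  · refine ⟨0, ?_⟩
    rw [he]
    simp
  obtain ⟨j, hj, hmax⟩ := Finset.exists_max_image (Dp J p)
    (fun j => ((Dp J p).filter fun i => |Ph N y i p - Ph N y j p| ≤ K).card) hne
  refine ⟨Ph N y j p, ?_⟩
  have h1 : ((Dp J p ×ˢ Dp J p).filter fun q => |Ph N y q.1 p - Ph N y q.2 p| ≤ K).card =
      ∑ j ∈ Dp J p, (((Dp J p).filter fun i => |Ph N y i p - Ph N y j p| ≤ K).card) := by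
    rw [Finset.card_filter, Finset.sum_product_right]
    exact Finset.sum_congr rfl fun j _ => (Finset.card_filter _ _).symm
  have h2 : ∑ j ∈ Dp J p, (((Dp J p).filter fun i => |Ph N y i p - Ph N y j p| ≤ K).card) ≤
      (Dp J p).card • ((Dp J p).filter fun i => |Ph N y i p - Ph N y j p| ≤ K).card :=
    Finset.sum_le_card_nsmul _ _ _ fun i hi => hmax i hi
  rw [← h1, smul_eq_mul] at h2
  have h3 := h2.trans (Nat.mul_le_mul_right _ (Dp_card_le hJ p))
  exact_mod_cast h3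

theorem slope_eq {N : ℕ} {y : ℤ → ℝ} (i p : ℤ) : y i - y (i + p) = sN N i * Ph N y i p := by
  unfold Ph
  rw [mul_div_cancel₀ _ (sN_pos N i).ne']

theorem first_est {N : ℕ} {y : ℤ → ℝ} {K k k' : ℝ} {i p w : ℤ} (hp : -(N : ℤ) < p)
    (h1 : |Ph N y i p - k| ≤ K) (h2 : |Ph N y i (p + w) - k'| ≤ K) :
    |Ph N y (i + p) w - sN N (-p) * (k' - k)| ≤ 6 * K := by
  have e1 := slope_eq (N := N) (y := y) i p
  have e2 := slope_eq (N := N) (y := y) i (p + w)
  have e3 : i + (p + w) = i + p + w := by ring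
  rw [e3] at e2
  have h3 : Ph N y (i + p) w = sN N (-p) * (Ph N y i (p + w) - Ph N y i p) := by
    have h4 : y (i + p) - y (i + p + w) = sN N i * (Ph N y i (p + w) - Ph N y i p) := by
      linarith
    have h5 : Ph N y (i + p) w = (y (i + p) - y (i + p + w)) / sN N (i + p) := rfl
    rw [h5, h4, sN_add, sN_neg]
    have := (sN_pos N i).ne'
    have := (sN_pos N p).ne'
    field_simp
  have h6 : sN N (-p) ≤ 3 := sN_le_three (by linarith)
  have h7 := sN_pos N (-p)
  rw [h3, ← mul_sub, abs_mul, abs_of_pos h7]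
  have h8 : |Ph N y i (p + w) - Ph N y i p - (k' - k)| ≤ 2 * K := by
    have h9 : Ph N y i (p + w) - Ph N y i p - (k' - k) =
        (Ph N y i (p + w) - k') - (Ph N y i p - k) := by ring
    rw [h9]
    have := abs_sub (Ph N y i (p + w) - k') (Ph N y i p - k)
    linarith
  have h9 := abs_nonneg (Ph N y i (p + w) - Ph N y i p - (k' - k))
  nlinarith

theorem second_est {N : ℕ} {y : ℤ → ℝ} {K k k' : ℝ} {i' p w : ℤ} (hw : w ≤ (N : ℤ))
    (h1 : |Ph N y (i' + w) p - k| ≤ K) (h2 : |Ph N y i' (p + w) - k'| ≤ K) :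
    |Ph N y i' w - (k' - sN N w * k)| ≤ 6 * K := by
  have e1 := slope_eq (N := N) (y := y) (i' + w) p
  have e2 := slope_eq (N := N) (y := y) i' (p + w)
  have e3 : i' + (p + w) = i' + w + p := by ring
  rw [e3] at e2
  rw [sN_add] at e1
  have h3 : Ph N y i' w = Ph N y i' (p + w) - sN N w * Ph N y (i' + w) p := by
    have h4 : y i' - y (i' + w) = sN N i' * (Ph N y i' (p + w) - sN N w * Ph N y (i' + w) p) := by
      rw [mul_sub, ← e2, ← mul_assoc, ← e1]
      ring
    have h5 : Ph N y i' w = (y i' - y (i' + w)) / sN N i' := rfl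
    rw [h5, h4, mul_div_cancel_left₀ _ (sN_pos N i').ne']
  have h6 : sN N w ≤ 3 := sN_le_three hw
  have h7 := sN_pos N w
  have h8 : Ph N y i' w - (k' - sN N w * k) =
      (Ph N y i' (p + w) - k') - sN N w * (Ph N y (i' + w) p - k) := by
    rw [h3]
    ring
  rw [h8]
  have h9 := abs_sub (Ph N y i' (p + w) - k') (sN N w * (Ph N y (i' + w) p - k))
  rw [abs_mul, abs_of_pos h7] at h9
  have h10 := abs_nonneg (Ph N y (i' + w) p - k)
  have h11 : sN N w * |Ph N y (i' + w) p - k| ≤ 3 * K := by nlinarith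
  have h12 : 0 ≤ K := h10.trans h1
  linarith

theorem t_COMB (h1 : S_COMBA) (h2 : S_COMBB) : S_COMB := by
  classical
  intro N κ K J y hκ hκ1 hK hN hJ hsum
  have hκ4 : 0 < κ ^ 4 := by positivity
  have hNpos : (0 : ℝ) < N := lt_of_lt_of_le (by positivity) hN
  have hN0 : 0 < N := by exact_mod_cast hNpos
  have hJcard : (J.card : ℝ) ≤ N := by
    have h := Finset.card_le_card hJ
    rw [Int.card_Ico, sub_zero, Int.toNat_natCast] at h
    exact_mod_cast h
  choose k hk using fun p => popular (N := N) hJ y K p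
  let M : ℤ → Finset ℤ := fun p => (Dp J p).filter fun i => |Ph N y i p - k p| ≤ K
  have hMmem : ∀ p i, i ∈ M p ↔ (i ∈ J ∧ i + p ∈ J) ∧ |Ph N y i p - k p| ≤ K := by
    intro p i
    rw [Finset.mem_filter, mem_Dp]
  have hMJ : ∀ p, M p ⊆ J := fun p i hi => ((hMmem p i).1 hi).1.1
  obtain ⟨w, P, hw, hP, hPsub, hPM⟩ := h1 N κ M hκ hκ1 hN (fun p => (hMJ p).trans hJ)
    (fun p i hi => Finset.mem_Ico.1 (hJ ((hMmem p i).1 hi).1.2)) (by
      have h3 : ∑ p ∈ Finset.Ioo (-(N : ℤ)) N,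
          (((Dp J p ×ˢ Dp J p).filter fun q => |Ph N y q.1 p - Ph N y q.2 p| ≤ K).card : ℝ) ≤
          ∑ p ∈ Finset.Ioo (-(N : ℤ)) N, N * ((M p).card : ℝ) :=
        Finset.sum_le_sum fun p _ => hk p
      rw [← Finset.mul_sum] at h3
      have h4 : (κ * (N : ℝ) ^ 2) * N ≤ (∑ p ∈ Finset.Ioo (-(N : ℤ)) N, ((M p).card : ℝ)) * N := by
        linarith
      exact le_of_mul_le_mul_right h4 hNpos)
  set κ3 : ℝ := κ ^ 4 / 64 with hκ3
  have hκ3pos : 0 < κ3 := by positivity
  have hPne : P.Nonempty := by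
    rw [← Finset.card_pos]
    have h3 : (0 : ℝ) < P.card := lt_of_lt_of_le (by positivity) hP
    exact_mod_cast h3
  -- the size of `w`
  have hwN : -(N : ℤ) < w ∧ w < N := by
    obtain ⟨p, hp⟩ := hPne
    have h3 := (hPM p hp).1
    have h4 : (M p ∩ M (p + w)).Nonempty := by
      rw [← Finset.card_pos]
      have h5 : (0 : ℝ) < ((M p ∩ M (p + w)).card : ℝ) := lt_of_lt_of_le (by positivity) h3
      exact_mod_cast h5
    obtain ⟨i, hi⟩ := h4
    rw [Finset.mem_inter, hMmem, hMmem] at hi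
    have h5 := Finset.mem_Ico.1 (hJ hi.1.1.2)
    have h6 := Finset.mem_Ico.1 (hJ hi.2.1.2)
    constructor <;> linarith [h5.1, h5.2, h6.1, h6.2]
  -- the two families of popular values
  have hDw : ((Dp J w).card : ℝ) ≤ N := by exact_mod_cast Dp_card_le hJ w
  have hA : ∀ p ∈ P, κ3 * N ≤ (((Dp J w).filter fun l =>
      |Ph N y l w - sN N (-p) * (k (p + w) - k p)| ≤ 6 * K).card : ℝ) := by
    intro p hp
    refine (hPM p hp).1.trans ?_
    have hpN := Finset.mem_Ioo.1 (hPsub hp)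
    have h3 : (M p ∩ M (p + w)).card ≤ ((Dp J w).filter fun l =>
        |Ph N y l w - sN N (-p) * (k (p + w) - k p)| ≤ 6 * K).card := by
      refine Finset.card_le_card_of_injOn (fun i => i + p) ?_ ((add_left_injective p).injOn)
      intro i hi
      have hi' : i ∈ M p ∩ M (p + w) := hi
      rw [Finset.mem_inter, hMmem, hMmem] at hi'
      rw [Finset.mem_coe, Finset.mem_filter, mem_Dp]
      refine ⟨⟨hi'.1.1.2, ?_⟩, ?_⟩
      · have h4 := hi'.2.1.2
        rwa [← add_assoc] at h4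
      · exact first_est hpN.1 hi'.1.2 hi'.2.2
    exact_mod_cast h3
  have hB : ∀ p ∈ P, κ3 * N ≤ (((Dp J w).filter fun l =>
      |Ph N y l w - (k (p + w) - sN N w * k p)| ≤ 6 * K).card : ℝ) := by
    intro p hp
    refine (hPM p hp).2.trans ?_
    have h3 : ((M p).image (fun i => i + p) ∩ (M (p + w)).image (fun i => i + (p + w))).card ≤
        ((Dp J w).filter fun l => |Ph N y l w - (k (p + w) - sN N w * k p)| ≤ 6 * K).card := by
      refine Finset.card_le_card_of_injOn (fun m => m - (p + w)) ?_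
        ((sub_left_injective (b := p + w)).injOn)
      intro m hm
      have hm' : m ∈ (M p).image (fun i => i + p) ∩ (M (p + w)).image (fun i => i + (p + w)) := hm
      rw [Finset.mem_inter, Finset.mem_image, Finset.mem_image] at hm'
      obtain ⟨⟨i, hi, him⟩, ⟨i', hi', hi'm⟩⟩ := hm'
      rw [hMmem] at hi hi'
      have h4 : m - (p + w) = i' := by linarith
      have h5 : i = i' + w := by linarith
      change m - (p + w) ∈ (((Dp J w).filter fun l =>
        |Ph N y l w - (k (p + w) - sN N w * k p)| ≤ 6 * K : Finset ℤ) : Set ℤ)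
      rw [Finset.mem_coe, h4, Finset.mem_filter, mem_Dp]
      rw [h5] at hi
      exact ⟨⟨hi'.1.1, hi.1.1⟩, second_est hwN.2.le hi.2 hi'.2⟩
    exact_mod_cast h3
  obtain ⟨a, P', hP'P, hP'card, ha⟩ := h2 N κ3 (6 * K) (Dp J w) P (fun l => Ph N y l w)
    (fun p => sN N (-p) * (k (p + w) - k p)) hκ3pos (by linarith) hN0 hDw hA
  obtain ⟨b, P'', hP''P', hP''card, hb⟩ := h2 N κ3 (6 * K) (Dp J w) P' (fun l => Ph N y l w)
    (fun p => k (p + w) - sN N w * k p) hκ3pos (by linarith) hN0 hDw (fun p hp => hB p (hP'P hp))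
  have hP''3 : κ3 ^ 3 * N ≤ (P''.card : ℝ) := by
    have h3 : κ3 * (κ3 * (κ3 * N)) ≤ κ3 * (κ3 * P.card) :=
      mul_le_mul_of_nonneg_left (mul_le_mul_of_nonneg_left hP hκ3pos.le) hκ3pos.le
    have h4 : κ3 * (κ3 * P.card) ≤ κ3 * P'.card := mul_le_mul_of_nonneg_left hP'card hκ3pos.le
    calc κ3 ^ 3 * N = κ3 * (κ3 * (κ3 * N)) := by ring
      _ ≤ P''.card := (h3.trans h4).trans hP''card
  have hP''P : P'' ⊆ P := hP''P'.trans hP'P
  -- the values `k p`
  set E : ℝ := sN N w - 1 with hE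
  have hEabs : κ3 / 2 ≤ |E| := by
    have h3 : -1 ≤ (w : ℝ) / N := by
      rw [le_div_iff₀ hNpos]
      have h4 : (-(N : ℤ) : ℤ) ≤ w := hwN.1.le
      have h5 : ((-(N : ℤ) : ℤ) : ℝ) ≤ (w : ℝ) := by exact_mod_cast h4
      push_cast at h5
      linarith
    have h4 := half_le_abs_exp_sub_one h3
    have h5 : κ3 ≤ |(w : ℝ) / N| := by
      rw [abs_div, abs_of_pos hNpos, le_div_iff₀ hNpos]
      exact hw
    change κ3 / 2 ≤ |Real.exp ((w : ℝ) / N) - 1|
    linarith
  have hE0 : E ≠ 0 := by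
    intro h
    rw [h, abs_zero] at hEabs
    linarith
  have hkp : ∀ p ∈ P'', |k p - (-b / E + a / E * sN N p)| ≤ 96 * K / κ3 := by
    intro p hp
    have h3 := ha p (hP''P' hp)
    have h4 := hb p hp
    have hpN := Finset.mem_Ioo.1 (hPsub (hP''P hp))
    have h5 : sN N p ≤ 3 := sN_le_three hpN.2.le
    have h6 := sN_pos N p
    have h7 : k p * E - (-b + a * sN N p) =
        sN N p * (sN N (-p) * (k (p + w) - k p) - a) - (k (p + w) - sN N w * k p - b) := by
      rw [mul_sub (sN N p), ← mul_assoc (sN N p), sN_neg, mul_inv_cancel₀ h6.ne', one_mul, hE]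
      ring
    have h8 : |k p * E - (-b + a * sN N p)| ≤ 48 * K := by
      rw [h7]
      have h9 := abs_sub (sN N p * (sN N (-p) * (k (p + w) - k p) - a))
        (k (p + w) - sN N w * k p - b)
      rw [abs_mul, abs_of_pos h6] at h9
      have h10 := abs_nonneg (sN N (-p) * (k (p + w) - k p) - a)
      have h11 : sN N p * |sN N (-p) * (k (p + w) - k p) - a| ≤ 3 * (2 * (6 * K)) := by nlinarith
      linarith
    have h9 : k p - (-b / E + a / E * sN N p) = (k p * E - (-b + a * sN N p)) / E := by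
      field_simp
    rw [h9, abs_div, div_le_div_iff₀ (abs_pos.2 hE0) hκ3pos]
    nlinarith
  -- the choice of `m`
  have hm : ∃ m ∈ J, κ3 ^ 4 * N ≤ ((P''.filter fun p => m ∈ M p).card : ℝ) := by
    by_contra hcon
    push Not at hcon
    have h3 : κ3 ^ 3 * N * (κ3 * N) ≤ ∑ p ∈ P'', ((M p).card : ℝ) := by
      have h4 : (P''.card : ℝ) * (κ3 * N) ≤ ∑ p ∈ P'', ((M p).card : ℝ) := by
        rw [← nsmul_eq_mul]
        refine Finset.card_nsmul_le_sum _ _ _ fun p hp => (hPM p (hP''P hp)).1.trans ?_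
        exact_mod_cast Finset.card_le_card Finset.inter_subset_left
      exact (mul_le_mul_of_nonneg_right hP''3 (by positivity)).trans h4
    have h4 : ∑ p ∈ P'', ((M p).card : ℝ) = ∑ m ∈ J, ((P''.filter fun p => m ∈ M p).card : ℝ) := by
      have h5 : ∀ p ∈ P'', ((M p).card : ℝ) = ∑ m ∈ J, if m ∈ M p then (1 : ℝ) else 0 := by
        intro p _
        rw [Finset.sum_ite_mem, Finset.inter_eq_right.2 (hMJ p), Finset.sum_const, nsmul_eq_mul,
          mul_one]
      rw [Finset.sum_congr rfl h5, Finset.sum_comm]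
      refine Finset.sum_congr rfl fun m _ => ?_
      rw [Finset.card_filter]
      push_cast
      rfl
    have hJne : J.Nonempty := by
      obtain ⟨p, hp⟩ := hPne
      have h5 : (0 : ℝ) < ((M p ∩ M (p + w)).card : ℝ) :=
        lt_of_lt_of_le (by positivity) (hPM p hp).1
      have h6 : 0 < (M p ∩ M (p + w)).card := by exact_mod_cast h5
      obtain ⟨i, hi⟩ := Finset.card_pos.1 h6
      exact ⟨i, hMJ p (Finset.mem_inter.1 hi).1⟩
    have h5 : ∑ m ∈ J, ((P''.filter fun p => m ∈ M p).card : ℝ) < ∑ _m ∈ J, κ3 ^ 4 * (N : ℝ) :=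
      Finset.sum_lt_sum_of_nonempty hJne fun m hm => hcon m hm
    rw [Finset.sum_const, nsmul_eq_mul] at h5
    have h6 : (J.card : ℝ) * (κ3 ^ 4 * N) ≤ N * (κ3 ^ 4 * N) :=
      mul_le_mul_of_nonneg_right hJcard (by positivity)
    have h7 : κ3 ^ 3 * N * (κ3 * N) = N * (κ3 ^ 4 * N) := by ring
    linarith
  obtain ⟨m, hmJ, hm⟩ := hm
  refine ⟨y m - sN N m * (-b / E), -(a / E), (P''.filter fun p => m ∈ M p).image fun p => m + p,
    ?_, ?_, ?_⟩
  · intro l hl
    obtain ⟨p, hp, rfl⟩ := Finset.mem_image.1 hl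
    rw [Finset.mem_filter, hMmem] at hp
    exact hp.2.1.2
  · rw [Finset.card_image_of_injective _ (add_right_injective m)]
    refine le_trans (mul_le_mul_of_nonneg_right (pow_le_pow_left₀ (by positivity) ?_ 4) hNpos.le) hm
    rw [hκ3]
    have : 0 < κ ^ 4 := hκ4
    linarith
  · intro l hl
    obtain ⟨p, hp, rfl⟩ := Finset.mem_image.1 hl
    rw [Finset.mem_filter, hMmem] at hp
    have h3 := hkp p hp.1
    have h4 := hp.2.2
    have h5 := slope_eq (N := N) (y := y) m p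
    have h6 := sN_pos N m
    have h7 : sN N m ≤ 3 := sN_le_three (Finset.mem_Ico.1 (hJ hmJ)).2.le
    have h8 : y (m + p) - (y m - sN N m * (-b / E)) - -(a / E) * sN N (m + p) =
        -(sN N m * ((k p - (-b / E + a / E * sN N p)) + (Ph N y m p - k p))) := by
      rw [sN_add]
      linarith
    rw [h8, abs_neg, abs_mul, abs_of_pos h6]
    have h9 := abs_add_le (k p - (-b / E + a / E * sN N p)) (Ph N y m p - k p)
    have h10 := abs_nonneg (k p - (-b / E + a / E * sN N p) + (Ph N y m p - k p))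
    have h11 : sN N m * |k p - (-b / E + a / E * sN N p) + (Ph N y m p - k p)| ≤
        3 * (96 * K / κ3 + K) := by
      refine mul_le_mul h7 (by linarith) h10 (by norm_num)
    refine h11.trans ?_
    have h12 : 96 * K / κ3 = 6144 * K / κ ^ 4 := by
      rw [hκ3]
      field_simp
      norm_num
    have h13 : K ≤ K / κ ^ 4 := by
      rw [le_div_iff₀ hκ4]
      have h14 : κ ^ 4 ≤ 1 := pow_le_one₀ hκ.le hκ1
      nlinarith
    have h14 : 6144 * K / κ ^ 4 = 6144 * (K / κ ^ 4) := by ring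
    have h15 : 100000 * K / κ ^ 4 = 100000 * (K / κ ^ 4) := by ring
    have h16 : 0 ≤ K / κ ^ 4 := by positivity
    rw [h12, h14, h15]
    linarith

end Pool.Agent.Q125.DS
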