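import Pool.Agent.Q66.DS.Stm

/-! Project DS: job COMBA. -/

set_option autoImplicit false

open Pool.Agent.Q66.DS

namespace Pool.Agent.Q125.DS

/-- Cauchy-Schwarz for a family of subsets of a finite set. -/
theorem cs_family {ι Z : Type*} [DecidableEq Z] (P : Finset ι) (I : Finset Z) (Q : ι → Finset Z)
    (hQ : ∀ p ∈ P, Q p ⊆ I) :
    (∑ p ∈ P, ((Q p).card : ℝ)) ^ 2 ≤ I.card * ∑ p ∈ P, ∑ p' ∈ P, ((Q p ∩ Q p').card : ℝ) := by
  classical
  have h1 : ∀ p ∈ P, ((Q p).card : ℝ) = ∑ z ∈ I, if z ∈ Q p then (1 : ℝ) else 0 := by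
    intro p hp
    rw [Finset.sum_ite_mem, Finset.inter_eq_right.2 (hQ p hp), Finset.sum_const, nsmul_eq_mul,
      mul_one]
  have h2 : ∀ p ∈ P, ∀ p' ∈ P, ((Q p ∩ Q p').card : ℝ) =
      ∑ z ∈ I, (if z ∈ Q p then (1 : ℝ) else 0) * (if z ∈ Q p' then (1 : ℝ) else 0) := by
    intro p hp p' _
    have h3 : ∀ z, (if z ∈ Q p then (1 : ℝ) else 0) * (if z ∈ Q p' then (1 : ℝ) else 0) =
        if z ∈ Q p ∩ Q p' then (1 : ℝ) else 0 := by
      intro z
      by_cases ha : z ∈ Q p <;> by_cases hb : z ∈ Q p' <;> simp [ha, hb]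
    rw [Finset.sum_congr rfl fun z _ => h3 z, Finset.sum_ite_mem,
      Finset.inter_eq_right.2 (Finset.inter_subset_left.trans (hQ p hp)), Finset.sum_const,
      nsmul_eq_mul, mul_one]
  rw [Finset.sum_congr rfl h1, Finset.sum_congr rfl fun p hp => Finset.sum_congr rfl (h2 p hp)]
  have h4 : ∑ p ∈ P, ∑ p' ∈ P, ∑ z ∈ I,
      (if z ∈ Q p then (1 : ℝ) else 0) * (if z ∈ Q p' then (1 : ℝ) else 0) =
      ∑ z ∈ I, (∑ p ∈ P, if z ∈ Q p then (1 : ℝ) else 0) ^ 2 := by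
    have h5 : ∀ z ∈ I, (∑ p ∈ P, if z ∈ Q p then (1 : ℝ) else 0) ^ 2 =
        ∑ p ∈ P, ∑ p' ∈ P, (if z ∈ Q p then (1 : ℝ) else 0) * (if z ∈ Q p' then (1 : ℝ) else 0) := by
      intro z _
      rw [sq, Finset.sum_mul_sum]
    rw [Finset.sum_congr rfl h5]
    have h6 : ∀ p ∈ P, ∑ p' ∈ P, ∑ z ∈ I,
        (if z ∈ Q p then (1 : ℝ) else 0) * (if z ∈ Q p' then (1 : ℝ) else 0) =
        ∑ z ∈ I, ∑ p' ∈ P, (if z ∈ Q p then (1 : ℝ) else 0) * (if z ∈ Q p' then (1 : ℝ) else 0) :=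
      fun p _ => Finset.sum_comm
    rw [Finset.sum_congr rfl h6, Finset.sum_comm]
  rw [h4, Finset.sum_comm]
  exact sq_sum_le_card_mul_sum_sq

theorem t_COMBA : S_COMBA := by
  classical
  intro N κ M hκ hκ1 hN hM hM2 hsum
  have hκ4 : 0 < κ ^ 4 := by positivity
  have hNpos : (0 : ℝ) < N := lt_of_lt_of_le (by positivity) hN
  have hN0 : 0 < N := by exact_mod_cast hNpos
  have hN100 : 100 ≤ κ ^ 4 * N := by
    rw [div_le_iff₀ hκ4] at hN
    linarith
  set P0 : Finset ℤ := Finset.Ioo (-(N : ℤ)) N with hP0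
  have hP0card : (P0.card : ℝ) ≤ 2 * N := by
    have h : P0.card = 2 * N - 1 := by
      rw [hP0, Int.card_Ioo]
      omega
    rw [h]
    have h2 : ((2 * N - 1 : ℕ) : ℝ) ≤ ((2 * N : ℕ) : ℝ) := by
      exact_mod_cast Nat.sub_le _ _
    refine h2.trans ?_
    push_cast
    exact le_refl _
  let I : Finset ℤ := Finset.Ico 0 (N : ℤ)
  have hIcard : I.card = N := by simp [I]
  let M' : ℤ → Finset ℤ := fun p => (M p).image fun i => i + p
  have hM' : ∀ p, M' p ⊆ I := by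
    intro p l hl
    obtain ⟨i, hi, rfl⟩ := Finset.mem_image.1 hl
    exact Finset.mem_Ico.2 (hM2 p i hi)
  have hM'card : ∀ p, (M' p).card = (M p).card := fun p =>
    Finset.card_image_of_injective _ (add_left_injective p)
  let Q : ℤ → Finset (ℤ × ℤ) := fun p => M p ×ˢ M' p
  let G : ℤ → ℤ → ℝ := fun p p' => ((M p ∩ M p').card : ℝ) * ((M' p ∩ M' p').card : ℝ)
  have hQG : ∀ p p', ((Q p ∩ Q p').card : ℝ) = G p p' := by
    intro p p'
    have h : Q p ∩ Q p' = (M p ∩ M p') ×ˢ (M' p ∩ M' p') := by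
      ext z
      change z ∈ (M p ×ˢ M' p) ∩ (M p' ×ˢ M' p') ↔ _
      rw [Finset.mem_inter, Finset.mem_product, Finset.mem_product, Finset.mem_product,
        Finset.mem_inter, Finset.mem_inter]
      tauto
    rw [h, Finset.card_product]
    push_cast
    rfl
  have hAle : ∀ p p', ((M p ∩ M p').card : ℝ) ≤ N := by
    intro p p'
    have h := Finset.card_le_card ((Finset.inter_subset_left (s₁ := M p) (s₂ := M p')).trans (hM p))
    rw [hIcard] at h
    exact_mod_cast h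
  have hBle : ∀ p p', ((M' p ∩ M' p').card : ℝ) ≤ N := by
    intro p p'
    have h := Finset.card_le_card ((Finset.inter_subset_left (s₁ := M' p) (s₂ := M' p')).trans (hM' p))
    rw [hIcard] at h
    exact_mod_cast h
  -- first Cauchy-Schwarz inequality
  have hs1 : κ ^ 2 * (N : ℝ) ^ 3 / 2 ≤ ∑ p ∈ P0, ((Q p).card : ℝ) := by
    have h1 : (∑ p ∈ P0, ((M p).card : ℝ)) ^ 2 ≤ P0.card * ∑ p ∈ P0, ((M p).card : ℝ) ^ 2 :=
      sq_sum_le_card_mul_sum_sq
    have h2 : ∑ p ∈ P0, ((Q p).card : ℝ) = ∑ p ∈ P0, ((M p).card : ℝ) ^ 2 := by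
      refine Finset.sum_congr rfl fun p _ => ?_
      change (((M p ×ˢ M' p)).card : ℝ) = _
      rw [Finset.card_product, hM'card]
      push_cast
      ring
    rw [h2]
    have h3 : (κ * (N : ℝ) ^ 2) ^ 2 ≤ (∑ p ∈ P0, ((M p).card : ℝ)) ^ 2 :=
      pow_le_pow_left₀ (by positivity) hsum 2
    have h4 : (P0.card : ℝ) * ∑ p ∈ P0, ((M p).card : ℝ) ^ 2 ≤
        2 * N * ∑ p ∈ P0, ((M p).card : ℝ) ^ 2 :=
      mul_le_mul_of_nonneg_right hP0card (Finset.sum_nonneg fun p _ => by positivity)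
    have h5 : (κ ^ 2 * (N : ℝ) ^ 3 / 2) * (2 * N) ≤ (∑ p ∈ P0, ((M p).card : ℝ) ^ 2) * (2 * N) := by
      nlinarith
    exact le_of_mul_le_mul_right h5 (by positivity)
  -- second Cauchy-Schwarz inequality
  have hs2 : κ ^ 4 * (N : ℝ) ^ 4 / 4 ≤ ∑ p ∈ P0, ∑ p' ∈ P0, G p p' := by
    have h1 := cs_family P0 (I ×ˢ I) Q fun p _ => Finset.product_subset_product (hM p) (hM' p)
    rw [Finset.card_product, hIcard] at h1
    have h2 : (κ ^ 2 * (N : ℝ) ^ 3 / 2) ^ 2 ≤ (∑ p ∈ P0, ((Q p).card : ℝ)) ^ 2 :=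
      pow_le_pow_left₀ (by positivity) hs1 2
    have h3 : ∑ p ∈ P0, ∑ p' ∈ P0, ((Q p ∩ Q p').card : ℝ) = ∑ p ∈ P0, ∑ p' ∈ P0, G p p' :=
      Finset.sum_congr rfl fun p _ => Finset.sum_congr rfl fun p' _ => hQG p p'
    rw [h3] at h1
    push_cast at h1
    have h4 : (κ ^ 4 * (N : ℝ) ^ 4 / 4) * (N * N) ≤ (∑ p ∈ P0, ∑ p' ∈ P0, G p p') * (N * N) := by
      nlinarith
    exact le_of_mul_le_mul_right h4 (by positivity)
  -- the good pairs
  let good : ℤ × ℤ → Prop := fun z => κ ^ 4 / 64 * (N : ℝ) ^ 2 ≤ G z.1 z.2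
  have hGle : ∀ p p', G p p' ≤ (N : ℝ) ^ 2 := by
    intro p p'
    rw [sq]
    exact mul_le_mul (hAle p p') (hBle p p') (Nat.cast_nonneg _) hNpos.le
  have hcg : 3 / 16 * κ ^ 4 * (N : ℝ) ^ 2 ≤ (((P0 ×ˢ P0).filter good).card : ℝ) := by
    have h1 : ∑ p ∈ P0, ∑ p' ∈ P0, G p p' = ∑ z ∈ P0 ×ˢ P0, G z.1 z.2 :=
      (Finset.sum_product' P0 P0 G).symm
    have h2 : ∑ z ∈ P0 ×ˢ P0, G z.1 z.2 ≤ ∑ z ∈ P0 ×ˢ P0,
        ((if good z then (N : ℝ) ^ 2 else 0) + κ ^ 4 / 64 * (N : ℝ) ^ 2) := by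
      refine Finset.sum_le_sum fun z _ => ?_
      by_cases hz : good z
      · rw [if_pos hz]
        have := hGle z.1 z.2
        have h3 : 0 ≤ κ ^ 4 / 64 * (N : ℝ) ^ 2 := by positivity
        linarith
      · rw [if_neg hz]
        have h3 : G z.1 z.2 < κ ^ 4 / 64 * (N : ℝ) ^ 2 := not_le.1 hz
        linarith
    rw [Finset.sum_add_distrib, ← Finset.sum_filter, Finset.sum_const, Finset.sum_const,
      nsmul_eq_mul, nsmul_eq_mul, Finset.card_product] at h2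
    push_cast at h2
    have h3 : (P0.card : ℝ) * P0.card ≤ 2 * N * (2 * N) :=
      mul_le_mul hP0card hP0card (Nat.cast_nonneg _) (by positivity)
    have h4 : (P0.card : ℝ) * P0.card * (κ ^ 4 / 64 * (N : ℝ) ^ 2) ≤
        2 * N * (2 * N) * (κ ^ 4 / 64 * (N : ℝ) ^ 2) :=
      mul_le_mul_of_nonneg_right h3 (by positivity)
    have h5 : (3 / 16 * κ ^ 4 * (N : ℝ) ^ 2) * (N : ℝ) ^ 2 ≤
        (((P0 ×ˢ P0).filter good).card : ℝ) * (N : ℝ) ^ 2 := by
      rw [h1] at hs2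
      nlinarith
    exact le_of_mul_le_mul_right h5 (by positivity)
  -- the pairs near the diagonal
  let near : ℤ × ℤ → Prop := fun z => |((z.2 - z.1 : ℤ) : ℝ)| < κ ^ 4 / 64 * N
  have hcn : (((P0 ×ˢ P0).filter near).card : ℝ) ≤ 3 / 32 * κ ^ 4 * (N : ℝ) ^ 2 := by
    let m : ℤ := ⌊κ ^ 4 / 64 * (N : ℝ)⌋
    have hm0 : 0 ≤ m := Int.floor_nonneg.2 (by positivity)
    have h1 : ((P0 ×ˢ P0).filter near).card ≤ (P0 ×ˢ Finset.Icc (-m) m).card := by
      refine Finset.card_le_card_of_injOn (fun z => (z.1, z.2 - z.1)) ?_ ?_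
      · intro z hz
        have hz' : z ∈ (P0 ×ˢ P0).filter near := hz
        rw [Finset.mem_filter, Finset.mem_product] at hz'
        have h2 : |((z.2 - z.1 : ℤ) : ℝ)| < κ ^ 4 / 64 * N := hz'.2
        rw [Finset.mem_coe, Finset.mem_product, Finset.mem_Icc]
        refine ⟨hz'.1.1, ?_, ?_⟩
        · have h3 : ((-(z.2 - z.1) : ℤ) : ℝ) ≤ κ ^ 4 / 64 * N := by
            push_cast
            have := (abs_lt.1 h2).1
            push_cast at this
            linarith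
          have h4 := Int.le_floor.2 h3
          change -m ≤ z.2 - z.1
          have h5 : -(z.2 - z.1) ≤ m := h4
          linarith
        · have h3 : ((z.2 - z.1 : ℤ) : ℝ) ≤ κ ^ 4 / 64 * N := (abs_lt.1 h2).2.le
          exact Int.le_floor.2 h3
      · intro z _ z' _ h
        simp only [Prod.mk.injEq] at h
        ext
        · exact h.1
        · have := h.2
          rw [h.1] at this
          linarith
    rw [Finset.card_product, Int.card_Icc] at h1
    have h2 : ((m + 1 - -m).toNat : ℝ) ≤ 2 * (κ ^ 4 / 64 * N) + 1 := by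
      have h3 : ((m + 1 - -m).toNat : ℤ) = 2 * m + 1 := by
        rw [Int.toNat_of_nonneg (by linarith)]
        ring
      have h4 : ((m + 1 - -m).toNat : ℝ) = 2 * (m : ℝ) + 1 := by exact_mod_cast h3
      rw [h4]
      have h5 : (m : ℝ) ≤ κ ^ 4 / 64 * N := Int.floor_le _
      linarith
    have h3 : (((P0 ×ˢ P0).filter near).card : ℝ) ≤ P0.card * ((m + 1 - -m).toNat : ℝ) := by
      exact_mod_cast h1
    have h4 : (P0.card : ℝ) * ((m + 1 - -m).toNat : ℝ) ≤ 2 * N * (2 * (κ ^ 4 / 64 * N) + 1) :=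
      mul_le_mul hP0card h2 (Nat.cast_nonneg _) (by positivity)
    have h5 : 100 * (N : ℝ) ≤ κ ^ 4 * N * N := mul_le_mul_of_nonneg_right hN100 hNpos.le
    nlinarith
  -- the remaining pairs
  let R : Finset (ℤ × ℤ) := (P0 ×ˢ P0).filter fun z => good z ∧ ¬ near z
  have hR : 3 / 32 * κ ^ 4 * (N : ℝ) ^ 2 ≤ (R.card : ℝ) := by
    have h1 : (P0 ×ˢ P0).filter good ⊆ R ∪ (P0 ×ˢ P0).filter near := by
      intro z hz
      rw [Finset.mem_filter] at hz
      rw [Finset.mem_union]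
      by_cases hn : near z
      · exact Or.inr (Finset.mem_filter.2 ⟨hz.1, hn⟩)
      · exact Or.inl (Finset.mem_filter.2 ⟨hz.1, hz.2, hn⟩)
    have h2 := (Finset.card_le_card h1).trans (Finset.card_union_le _ _)
    have h3 : (((P0 ×ˢ P0).filter good).card : ℝ) ≤ R.card + ((P0 ×ˢ P0).filter near).card := by
      exact_mod_cast h2
    linarith
  -- the pigeonhole principle
  let W : Finset ℤ := Finset.Ioo (-(2 * (N : ℤ))) (2 * N)
  have hW : (W.card : ℝ) ≤ 4 * N := by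
    have h : W.card = 4 * N - 1 := by
      rw [Int.card_Ioo]
      omega
    rw [h]
    have h2 : ((4 * N - 1 : ℕ) : ℝ) ≤ ((4 * N : ℕ) : ℝ) := by
      exact_mod_cast Nat.sub_le _ _
    refine h2.trans ?_
    push_cast
    exact le_refl _
  have hmap : ∀ z ∈ R, z.2 - z.1 ∈ W := by
    intro z hz
    rw [Finset.mem_filter, Finset.mem_product, Finset.mem_Ioo, Finset.mem_Ioo] at hz
    rw [Finset.mem_Ioo]
    constructor <;> linarith [hz.1.1.1, hz.1.1.2, hz.1.2.1, hz.1.2.2]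
  have hpig : ∃ w ∈ W, κ ^ 4 / 64 * N ≤ ((R.filter fun z => z.2 - z.1 = w).card : ℝ) := by
    by_contra hcon
    push Not at hcon
    have h1 := Finset.card_eq_sum_card_fiberwise (f := fun z : ℤ × ℤ => z.2 - z.1) (s := R) (t := W)
      (fun z hz => hmap z hz)
    have h2 : (R.card : ℝ) ≤ ∑ _w ∈ W, κ ^ 4 / 64 * (N : ℝ) := by
      rw [h1]
      push_cast
      exact Finset.sum_le_sum fun w hw => (hcon w hw).le
    rw [Finset.sum_const, nsmul_eq_mul] at h2
    have h3 : (W.card : ℝ) * (κ ^ 4 / 64 * N) ≤ 4 * N * (κ ^ 4 / 64 * N) :=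
      mul_le_mul_of_nonneg_right hW (by positivity)
    have h4 : 0 < κ ^ 4 * (N : ℝ) ^ 2 := by positivity
    nlinarith
  obtain ⟨w, _, hw⟩ := hpig
  let P : Finset ℤ := (R.filter fun z => z.2 - z.1 = w).image Prod.fst
  have hPcard : P.card = (R.filter fun z => z.2 - z.1 = w).card := by
    refine Finset.card_image_of_injOn ?_
    intro z hz z' hz' h
    have h1 : z ∈ R.filter fun z => z.2 - z.1 = w := hz
    have h2 : z' ∈ R.filter fun z => z.2 - z.1 = w := hz'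
    rw [Finset.mem_filter] at h1 h2
    ext
    · exact h
    · linarith [h1.2, h2.2, (h : z.1 = z'.1)]
  have hPmem : ∀ p ∈ P, (p, p + w) ∈ R := by
    intro p hp
    obtain ⟨z, hz, rfl⟩ := Finset.mem_image.1 hp
    rw [Finset.mem_filter] at hz
    have h : (z.1, z.1 + w) = z := by
      ext
      · rfl
      · linarith [hz.2]
    rw [h]
    exact hz.1
  have hPne : P.Nonempty := by
    rw [← Finset.card_pos, hPcard]
    have h1 : (0 : ℝ) < ((R.filter fun z => z.2 - z.1 = w).card : ℝ) :=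
      lt_of_lt_of_le (by positivity) hw
    exact_mod_cast h1
  refine ⟨w, P, ?_, by rw [hPcard]; exact hw, ?_, ?_⟩
  · obtain ⟨p, hp⟩ := hPne
    have h1 := hPmem p hp
    rw [Finset.mem_filter] at h1
    have h2 : ¬ (|((p + w - p : ℤ) : ℝ)| < κ ^ 4 / 64 * N) := h1.2.2
    rw [add_sub_cancel_left, not_lt] at h2
    exact h2
  · intro p hp
    have h1 := hPmem p hp
    rw [Finset.mem_filter, Finset.mem_product] at h1
    exact h1.1.1
  · intro p hp
    have h1 := hPmem p hp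
    rw [Finset.mem_filter] at h1
    have h2 : κ ^ 4 / 64 * (N : ℝ) ^ 2 ≤ ((M p ∩ M (p + w)).card : ℝ) *
        ((M' p ∩ M' (p + w)).card : ℝ) := h1.2.1
    constructor
    · have h3 : ((M p ∩ M (p + w)).card : ℝ) * ((M' p ∩ M' (p + w)).card : ℝ) ≤
          ((M p ∩ M (p + w)).card : ℝ) * N :=
        mul_le_mul_of_nonneg_left (hBle p (p + w)) (Nat.cast_nonneg _)
      have h4 : κ ^ 4 / 64 * (N : ℝ) * N ≤ ((M p ∩ M (p + w)).card : ℝ) * N := by nlinarith
      exact le_of_mul_le_mul_right h4 hNpos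
    · have h3 : ((M p ∩ M (p + w)).card : ℝ) * ((M' p ∩ M' (p + w)).card : ℝ) ≤
          N * ((M' p ∩ M' (p + w)).card : ℝ) :=
        mul_le_mul_of_nonneg_right (hAle p (p + w)) (Nat.cast_nonneg _)
      have h4 : κ ^ 4 / 64 * (N : ℝ) * N ≤ ((M' p ∩ M' (p + w)).card : ℝ) * N := by nlinarith
      exact le_of_mul_le_mul_right h4 hNpos

end Pool.Agent.Q125.DS
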