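import Pool.Agent.Q66.DS.Stm

/-! Project DS: job COMBB. -/

set_option autoImplicit false

open Pool.Agent.Q66.DS

namespace Pool.Agent.Q125.DS

theorem t_COMBB : S_COMBB := by
  classical
  intro N κ K D P f A hκ hK hN hD hP
  rcases P.eq_empty_or_nonempty with hPe | hPne
  · refine ⟨0, ∅, Finset.empty_subset _, ?_, fun p hp => absurd hp (Finset.notMem_empty p)⟩
    rw [hPe]
    simp
  -- a maximal separated set
  let S : Finset (Finset ℤ) := P.powerset.filter fun T =>
    ∀ p ∈ T, ∀ q ∈ T, p ≠ q → 2 * K < |A p - A q|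
  have hSne : S.Nonempty := ⟨∅, by simp [S]⟩
  obtain ⟨T, hT, hTmax⟩ := Finset.exists_max_image S Finset.card hSne
  have hT2 : T ⊆ P ∧ ∀ p ∈ T, ∀ q ∈ T, p ≠ q → 2 * K < |A p - A q| := by
    simpa [S] using hT
  obtain ⟨hTP, hTsep⟩ := hT2
  have hcov : ∀ p ∈ P, ∃ q ∈ T, |A p - A q| ≤ 2 * K := by
    intro p hp
    by_contra hcon
    push Not at hcon
    have hpT : p ∉ T := by
      intro h
      have := hcon p h
      rw [sub_self, abs_zero] at this
      linarith
    have hins : insert p T ∈ S := by
      simp only [S, Finset.mem_filter, Finset.mem_powerset]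
      refine ⟨Finset.insert_subset hp hTP, ?_⟩
      intro a ha b hb hab
      rw [Finset.mem_insert] at ha hb
      rcases ha with rfl | ha
      · rcases hb with rfl | hb
        · exact absurd rfl hab
        · exact hcon b hb
      · rcases hb with rfl | hb
        · rw [abs_sub_comm]
          exact hcon a ha
        · exact hTsep a ha b hb hab
    have h1 := hTmax _ hins
    rw [Finset.card_insert_of_notMem hpT] at h1
    omega
  -- the number of elements of `T`
  have hcard : (T.card : ℝ) * κ ≤ 1 := by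
    have hdisj : (T : Set ℤ).PairwiseDisjoint fun p => D.filter fun l => |f l - A p| ≤ K := by
      intro p hp q hq hpq
      rw [Function.onFun, Finset.disjoint_left]
      intro l hl hl'
      rw [Finset.mem_filter] at hl hl'
      have h1 := hTsep p hp q hq hpq
      have h2 : |A p - A q| ≤ |f l - A q| + |f l - A p| := by
        have h3 : A p - A q = (f l - A q) - (f l - A p) := by ring
        rw [h3]
        exact abs_sub _ _
      linarith [hl.2, hl'.2]
    have h1 : (T.biUnion fun p => D.filter fun l => |f l - A p| ≤ K) ⊆ D := by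
      intro l hl
      rw [Finset.mem_biUnion] at hl
      obtain ⟨p, _, hp⟩ := hl
      exact (Finset.mem_filter.1 hp).1
    have h2 := Finset.card_le_card h1
    rw [Finset.card_biUnion hdisj] at h2
    have h3 : (T.card : ℝ) * (κ * N) ≤ ∑ p ∈ T, ((D.filter fun l => |f l - A p| ≤ K).card : ℝ) := by
      rw [← nsmul_eq_mul]
      exact Finset.card_nsmul_le_sum _ _ _ fun p hp => hP p (hTP hp)
    have h4 : ∑ p ∈ T, ((D.filter fun l => |f l - A p| ≤ K).card : ℝ) ≤ D.card := by
      exact_mod_cast h2
    have hN' : (0 : ℝ) < N := by exact_mod_cast hN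
    have h5 : (T.card : ℝ) * κ * N ≤ 1 * N := by linarith
    exact le_of_mul_le_mul_right h5 hN'
  have hTne : T.Nonempty := by
    obtain ⟨p, hp⟩ := hPne
    obtain ⟨q, hq, _⟩ := hcov p hp
    exact ⟨q, hq⟩
  -- the pigeonhole principle
  have hpig : ∃ q ∈ T, κ * P.card ≤ ((P.filter fun p => |A p - A q| ≤ 2 * K).card : ℝ) := by
    by_contra hcon
    push Not at hcon
    have h1 : P ⊆ T.biUnion fun q => P.filter fun p => |A p - A q| ≤ 2 * K := by
      intro p hp
      obtain ⟨q, hq, h⟩ := hcov p hp
      rw [Finset.mem_biUnion]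
      exact ⟨q, hq, Finset.mem_filter.2 ⟨hp, h⟩⟩
    have h2 := (Finset.card_le_card h1).trans Finset.card_biUnion_le
    have h3 : (P.card : ℝ) ≤ ∑ q ∈ T, ((P.filter fun p => |A p - A q| ≤ 2 * K).card : ℝ) := by
      exact_mod_cast h2
    have h4 : ∑ q ∈ T, ((P.filter fun p => |A p - A q| ≤ 2 * K).card : ℝ) <
        ∑ _q ∈ T, κ * (P.card : ℝ) := Finset.sum_lt_sum_of_nonempty hTne fun q hq => hcon q hq
    rw [Finset.sum_const, nsmul_eq_mul] at h4
    have h5 : (T.card : ℝ) * (κ * P.card) ≤ 1 * P.card := by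
      rw [← mul_assoc]
      exact mul_le_mul_of_nonneg_right hcard (Nat.cast_nonneg _)
    linarith
  obtain ⟨q, _, hq⟩ := hpig
  exact ⟨A q, _, Finset.filter_subset _ _, hq, fun p hp => (Finset.mem_filter.1 hp).2⟩

end Pool.Agent.Q125.DS
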