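import Pool.Agent.Q66.DS.Stm

/-! Project DS: job FEJ. -/

set_option autoImplicit false

open Pool.Agent.Q66.DS MeasureTheory

namespace Pool.Agent.Q125.DS

theorem Kf_formula {R x : ℝ} (hR : 0 < R) (hx : x ≠ 0) :
    Kf R x = (1 - Real.cos (R * x)) / (R * x ^ 2) := by
  have hd : ∀ ξ ∈ Set.uIcc (0 : ℝ) R, HasDerivAt
      (fun ξ : ℝ => (1 - ξ / R) * Real.sin (x * ξ) / x - Real.cos (x * ξ) / (R * x ^ 2))
      ((1 - ξ / R) * Real.cos (x * ξ)) ξ := by
    intro ξ _
    have h1 : HasDerivAt (fun ξ : ℝ => 1 - ξ / R) (-(1 / R)) ξ := by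
      have := ((hasDerivAt_id ξ).div_const R).const_sub 1
      simpa using this
    have h0 : HasDerivAt (fun ξ : ℝ => x * ξ) x ξ := by
      have := (hasDerivAt_id ξ).const_mul x
      simpa using this
    have h2 := h0.sin
    have h3 := h0.cos
    have h4 := ((h1.mul h2).div_const x).sub (h3.div_const (R * x ^ 2))
    refine h4.congr_deriv ?_
    have hR' := hR.ne'
    field_simp
    ring
  have hi : IntervalIntegrable (fun ξ : ℝ => (1 - ξ / R) * Real.cos (x * ξ)) volume 0 R := by
    apply Continuous.intervalIntegrable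
    fun_prop
  unfold Kf
  rw [intervalIntegral.integral_eq_sub_of_hasDerivAt hd hi]
  rw [mul_zero, Real.sin_zero, Real.cos_zero, mul_zero, zero_div, zero_sub, div_self hR.ne', sub_self,
    zero_mul, zero_div, zero_sub, mul_comm x R]
  ring

theorem Kf_zero {R : ℝ} (hR : 0 < R) : Kf R 0 = R / 2 := by
  unfold Kf
  have h : ∀ ξ : ℝ, (1 - ξ / R) * Real.cos (0 * ξ) = 1 - ξ / R := by
    intro ξ
    rw [zero_mul, Real.cos_zero, mul_one]
  rw [intervalIntegral.integral_congr fun ξ _ => h ξ]
  rw [intervalIntegral.integral_sub (by simp) (by apply Continuous.intervalIntegrable; fun_prop),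
    intervalIntegral.integral_const, intervalIntegral.integral_div, integral_id]
  have := hR.ne'
  simp only [sub_zero, smul_eq_mul, mul_one]
  field_simp
  ring

theorem t_FEJ : S_FEJ := by
  intro R hR
  have hcont : Continuous (Kf R) := by
    unfold Kf
    apply intervalIntegral.continuous_parametric_intervalIntegral_of_continuous'
    fun_prop
  refine ⟨?_, ?_, ?_, ?_, hcont⟩
  · intro x
    rcases eq_or_ne x 0 with rfl | hx
    · rw [Kf_zero hR]
      positivity
    · rw [Kf_formula hR hx]
      have := Real.cos_le_one (R * x)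
      exact div_nonneg (by linarith) (by positivity)
  · intro x
    unfold Kf
    have h1 : ∫ ξ in (0 : ℝ)..R, (1 - ξ / R) * Real.cos (x * ξ) ≤ ∫ _ξ in (0 : ℝ)..R, (1 : ℝ) := by
      apply intervalIntegral.integral_mono_on hR.le
      · apply Continuous.intervalIntegrable
        fun_prop
      · simp
      · intro ξ hξ
        have h2 : 0 ≤ 1 - ξ / R := by
          have : ξ / R ≤ 1 := (div_le_one hR).2 hξ.2
          linarith
        have h3 : 1 - ξ / R ≤ 1 := by
          have : 0 ≤ ξ / R := div_nonneg hξ.1 hR.le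
          linarith
        have h4 := Real.cos_le_one (x * ξ)
        nlinarith
    rw [intervalIntegral.integral_const] at h1
    simpa using h1
  · intro x hx
    rw [Kf_formula hR hx]
    have := Real.neg_one_le_cos (R * x)
    apply div_le_div_of_nonneg_right _ (by positivity)
    linarith
  · intro x hx
    rcases eq_or_ne x 0 with rfl | hx0
    · rw [Kf_zero hR]
      linarith
    · rw [Kf_formula hR hx0]
      have h1 : |R * x| ≤ 1 := by
        rw [abs_mul, abs_of_pos hR]
        rw [le_div_iff₀ hR] at hx
        linarith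
      have h2 := Real.cos_bound h1
      have h3 := (abs_le.1 h2).2
      have h4 : |R * x| ^ 4 = (R * x) ^ 4 := by
        rw [← abs_pow]
        exact abs_of_nonneg (by positivity)
      rw [h4] at h3
      have h5 : (R * x) ^ 2 ≤ 1 := by
        rw [← sq_abs]
        exact pow_le_one₀ (abs_nonneg _) h1
      rw [le_div_iff₀ (by positivity)]
      have h6 : 0 ≤ (R * x) ^ 2 := by positivity
      have h7 : (R * x) ^ 4 = (R * x) ^ 2 * (R * x) ^ 2 := by ring
      have h8 : (R * x) ^ 4 ≤ (R * x) ^ 2 := by
        rw [h7]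
        nlinarith
      nlinarith

end Pool.Agent.Q125.DS
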