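import Pool.Agent.Q66.DS.Stm

/-! Project DS: job TOP. -/

set_option autoImplicit false

open Pool.Agent.Q66.DS MeasureTheory Set Filter Topology

namespace Pool.Agent.Q125.DS

theorem e_norm (x : ℝ) : ‖e x‖ = 1 := Complex.norm_exp_ofReal_mul_I x

theorem e_cont : Continuous e := by
  unfold e
  fun_prop

theorem e_add (x y : ℝ) : e (x + y) = e x * e y := by
  unfold e
  rw [← Complex.exp_add]
  congr 1
  push_cast
  ring

theorem e_re (x : ℝ) : (e x).re = Real.cos x := Complex.exp_ofReal_mul_I_re x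

section
variable (ν : Measure ℝ) [IsProbabilityMeasure ν]

theorem e_integrable (ξ : ℝ) : Integrable (fun a => e (ξ * a)) ν := by
  refine Integrable.of_bound (C := 1) ?_ (Eventually.of_forall fun a => (e_norm _).le)
  exact (e_cont.comp (continuous_const.mul continuous_id)).aestronglyMeasurable

theorem ch_cont : Continuous (ch ν) := by
  unfold ch
  refine continuous_of_dominated (bound := fun _ => 1) (fun ξ => ?_) (fun ξ => ?_) ?_ ?_
  · exact (e_integrable ν ξ).aestronglyMeasurable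
  · exact Eventually.of_forall fun a => (e_norm _).le
  · exact integrable_const _
  · exact Eventually.of_forall fun a => e_cont.comp (continuous_id.mul continuous_const)

/-- the real part -/
noncomputable def HH (y ξ : ℝ) : ℝ := (ch ν ξ * e (-(y * ξ))).re

theorem HH_cont (y : ℝ) : Continuous (HH ν y) := by
  unfold HH
  refine Complex.continuous_re.comp ((ch_cont ν).mul (e_cont.comp ?_))
  fun_prop

theorem HH_eq (y ξ : ℝ) : HH ν y ξ = ∫ a, Real.cos ((y - a) * ξ) ∂ν := by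
  have h1 : ch ν ξ * e (-(y * ξ)) = ∫ a, e (ξ * a) * e (-(y * ξ)) ∂ν :=
    (integral_mul_const _ _).symm
  have h2 : Integrable (fun a => e (ξ * a) * e (-(y * ξ))) ν := (e_integrable ν ξ).mul_const _
  have h3 : (∫ a, e (ξ * a) * e (-(y * ξ)) ∂ν).re = ∫ a, (e (ξ * a) * e (-(y * ξ))).re ∂ν :=
    (integral_re h2).symm
  unfold HH
  rw [h1, h3]
  refine integral_congr_ae (Eventually.of_forall fun a => ?_)
  change (e (ξ * a) * e (-(y * ξ))).re = Real.cos ((y - a) * ξ)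
  rw [← e_add, e_re, ← Real.cos_neg]
  congr 1
  ring

theorem weight_re (y a b : ℝ) (w : ℝ → ℝ) (hw : Continuous w) :
    (∫ ξ in a..b, ((w ξ : ℝ) : ℂ) * (ch ν ξ * e (-(y * ξ)))).re = ∫ ξ in a..b, w ξ * HH ν y ξ := by
  have h1 : IntervalIntegrable (fun ξ => ((w ξ : ℝ) : ℂ) * (ch ν ξ * e (-(y * ξ)))) volume a b := by
    apply Continuous.intervalIntegrable
    refine (Complex.continuous_ofReal.comp hw).mul ((ch_cont ν).mul (e_cont.comp ?_))
    fun_prop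
  have h2 := Complex.reCLM.intervalIntegral_comp_comm h1
  rw [Complex.reCLM_apply] at h2
  rw [← h2]
  refine intervalIntegral.integral_congr fun ξ _ => ?_
  change (((w ξ : ℝ) : ℂ) * (ch ν ξ * e (-(y * ξ)))).re = _
  rw [Complex.re_ofReal_mul]
  rfl

/-- exchange of the integrations -/
theorem swap_bdd (f : ℝ → ℝ → ℝ) (hf : Continuous (Function.uncurry f)) (a b B : ℝ)
    (hab : a ≤ b) (hB : ∀ x, ∀ ξ ∈ Icc a b, |f x ξ| ≤ B) :
    ∫ x, (∫ ξ in a..b, f x ξ) ∂ν = ∫ ξ in a..b, (∫ x, f x ξ ∂ν) := by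
  simp only [intervalIntegral.integral_of_le hab]
  refine integral_integral_swap ?_
  have hmeas : AEStronglyMeasurable (Function.uncurry f) (ν.prod (volume.restrict (Ioc a b))) :=
    hf.aestronglyMeasurable
  refine Integrable.of_bound (C := B) hmeas ?_
  have h1 : ∀ᵐ z ∂(ν.prod (volume.restrict (Ioc a b))), z.2 ∈ Ioc a b := by
    have h2 : ∀ᵐ ξ ∂(volume.restrict (Ioc a b)), ξ ∈ Ioc a b :=
      ae_restrict_mem measurableSet_Ioc
    exact (Measure.quasiMeasurePreserving_snd (μ := ν) (ν := volume.restrict (Ioc a b))).ae h2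
  filter_upwards [h1] with z hz
  rw [Real.norm_eq_abs]
  exact hB z.1 z.2 ⟨hz.1.le, hz.2⟩

/-- the smoothed densities -/
noncomputable def gg (j : ℕ) (y : ℝ) : ℝ := ∫ x, Kf (2 ^ j) (y - x) ∂ν

theorem gg_eq (j : ℕ) (y : ℝ) :
    gg ν j y = ∫ ξ in (0 : ℝ)..(2 ^ j), (1 - ξ / 2 ^ j) * HH ν y ξ := by
  have hR : (0 : ℝ) < 2 ^ j := by positivity
  unfold gg Kf
  rw [swap_bdd ν (fun x ξ => (1 - ξ / 2 ^ j) * Real.cos ((y - x) * ξ)) (by fun_prop) 0 (2 ^ j) 1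
    hR.le]
  · refine intervalIntegral.integral_congr fun ξ _ => ?_
    rw [integral_const_mul, HH_eq]
  · intro x ξ hξ
    rw [abs_mul]
    have h1 : |1 - ξ / 2 ^ j| ≤ 1 := by
      have h2 : ξ / 2 ^ j ≤ 1 := (div_le_one hR).2 hξ.2
      have h3 : 0 ≤ ξ / 2 ^ j := div_nonneg hξ.1 hR.le
      rw [abs_le]
      constructor <;> linarith
    have h2 := Real.abs_cos_le_one ((y - x) * ξ)
    calc |1 - ξ / 2 ^ j| * |Real.cos ((y - x) * ξ)| ≤ 1 * 1 :=
          mul_le_mul h1 h2 (abs_nonneg _) zero_le_one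
      _ = 1 := one_mul 1

theorem V_eq (j : ℕ) (y : ℝ) : 2 * gg ν (j + 1) y - gg ν j y =
    (∫ ξ in (0 : ℝ)..(2 ^ j), HH ν y ξ) +
      ∫ ξ in ((2 : ℝ) ^ j)..(2 * 2 ^ j), (2 - ξ / 2 ^ j) * HH ν y ξ := by
  have hc := HH_cont ν y
  have hi : ∀ (w : ℝ → ℝ) (a b : ℝ), Continuous w →
      IntervalIntegrable (fun ξ => w ξ * HH ν y ξ) volume a b :=
    fun w a b hw => (hw.mul hc).intervalIntegrable a b
  have h2 : (2 : ℝ) ^ (j + 1) = 2 * 2 ^ j := by ring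
  have h0 : (2 : ℝ) ^ j ≠ 0 := by positivity
  rw [gg_eq, gg_eq, h2, ← intervalIntegral.integral_const_mul]
  have h3 : ∀ ξ : ℝ, 2 * ((1 - ξ / (2 * 2 ^ j)) * HH ν y ξ) = (2 - ξ / 2 ^ j) * HH ν y ξ := by
    intro ξ
    field_simp
  rw [intervalIntegral.integral_congr fun ξ _ => h3 ξ,
    ← intervalIntegral.integral_add_adjacent_intervals (b := (2 : ℝ) ^ j)
      (hi _ _ _ (by fun_prop)) (hi _ _ _ (by fun_prop))]
  have h4 : ∫ ξ in (0 : ℝ)..(2 ^ j), (2 - ξ / 2 ^ j) * HH ν y ξ =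
      (∫ ξ in (0 : ℝ)..(2 ^ j), HH ν y ξ) + ∫ ξ in (0 : ℝ)..(2 ^ j), (1 - ξ / 2 ^ j) * HH ν y ξ := by
    rw [← intervalIntegral.integral_add (hc.intervalIntegrable _ _) (hi _ _ _ (by fun_prop))]
    refine intervalIntegral.integral_congr fun ξ _ => ?_
    change (2 - ξ / 2 ^ j) * HH ν y ξ = HH ν y ξ + (1 - ξ / 2 ^ j) * HH ν y ξ
    ring
  rw [h4]
  ring

theorem V_step (j : ℕ) (y : ℝ) : (2 * gg ν (j + 2) y - gg ν (j + 1) y) -
    (2 * gg ν (j + 1) y - gg ν j y) =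
    (∫ ξ in ((2 : ℝ) ^ j)..(2 * 2 ^ j), ((ξ / 2 ^ j - 1 : ℝ) : ℂ) * (ch ν ξ * e (-(y * ξ)))).re +
    (∫ ξ in ((2 : ℝ) ^ (j + 1))..(2 * 2 ^ (j + 1)),
      ((2 - ξ / 2 ^ (j + 1) : ℝ) : ℂ) * (ch ν ξ * e (-(y * ξ)))).re := by
  have hc := HH_cont ν y
  rw [V_eq, V_eq, weight_re ν y _ _ (fun ξ => ξ / 2 ^ j - 1) (by fun_prop),
    weight_re ν y _ _ (fun ξ => 2 - ξ / 2 ^ (j + 1)) (by fun_prop)]
  have h2 : (2 : ℝ) ^ (j + 1) = 2 * 2 ^ j := by ring
  have h3 : ∫ ξ in (0 : ℝ)..(2 ^ (j + 1)), HH ν y ξ = (∫ ξ in (0 : ℝ)..(2 ^ j), HH ν y ξ) +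
      ∫ ξ in ((2 : ℝ) ^ j)..(2 * 2 ^ j), HH ν y ξ := by
    rw [h2, intervalIntegral.integral_add_adjacent_intervals (hc.intervalIntegrable _ _)
      (hc.intervalIntegrable _ _)]
  have h4 : ∫ ξ in ((2 : ℝ) ^ j)..(2 * 2 ^ j), (ξ / 2 ^ j - 1) * HH ν y ξ =
      (∫ ξ in ((2 : ℝ) ^ j)..(2 * 2 ^ j), HH ν y ξ) -
        ∫ ξ in ((2 : ℝ) ^ j)..(2 * 2 ^ j), (2 - ξ / 2 ^ j) * HH ν y ξ := by
    have hi : IntervalIntegrable (fun ξ => (2 - ξ / 2 ^ j) * HH ν y ξ) volume ((2 : ℝ) ^ j)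
        (2 * 2 ^ j) := by
      apply Continuous.intervalIntegrable
      exact (by fun_prop : Continuous fun ξ : ℝ => 2 - ξ / 2 ^ j).mul hc
    rw [← intervalIntegral.integral_sub (hc.intervalIntegrable _ _) hi]
    refine intervalIntegral.integral_congr fun ξ _ => ?_
    change (ξ / 2 ^ j - 1) * HH ν y ξ = HH ν y ξ - (2 - ξ / 2 ^ j) * HH ν y ξ
    ring
  rw [h3, h4]
  ring

end

end Pool.Agent.Q125.DS
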