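import Pool.Agent.Q125.DS.Top

/-! Project DS: job TOP, conclusion. -/

set_option autoImplicit false

open Pool.Agent.Q66.DS MeasureTheory Set Filter Topology

namespace Pool.Agent.Q125.DS

section
variable (ν : Measure ℝ) [IsProbabilityMeasure ν]

theorem gg_integrable (h : S_FEJ) (j : ℕ) (y : ℝ) :
    Integrable (fun x => Kf (2 ^ j) (y - x)) ν := by
  obtain ⟨h1, h2, _, _, h5⟩ := h (2 ^ j) (by positivity)
  refine Integrable.of_bound (C := 2 ^ j) ?_ (Eventually.of_forall fun x => ?_)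
  · exact (h5.comp (continuous_const.sub continuous_id)).aestronglyMeasurable
  · rw [Real.norm_eq_abs, abs_of_nonneg (h1 _)]
    exact h2 _

theorem gg_nonneg (h : S_FEJ) (j : ℕ) (y : ℝ) : 0 ≤ gg ν j y :=
  integral_nonneg fun x => (h (2 ^ j) (by positivity)).1 _

theorem gg_zero_le (h : S_FEJ) (y : ℝ) : gg ν 0 y ≤ 1 := by
  have h1 : gg ν 0 y ≤ ∫ _x, (1 : ℝ) ∂ν := by
    refine integral_mono (gg_integrable ν h 0 y) (integrable_const _) fun x => ?_
    have := (h (2 ^ 0) (by positivity)).2.1 (y - x)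
    simpa using this
  simpa using h1

theorem gg_cont (h : S_FEJ) (j : ℕ) : Continuous (gg ν j) := by
  obtain ⟨h1, h2, _, _, h5⟩ := h (2 ^ j) (by positivity)
  unfold gg
  refine continuous_of_dominated (bound := fun _ => 2 ^ j) (fun y => ?_) (fun y => ?_) ?_ ?_
  · exact (gg_integrable ν h j y).aestronglyMeasurable
  · refine Eventually.of_forall fun x => ?_
    rw [Real.norm_eq_abs, abs_of_nonneg (h1 _)]
    exact h2 _
  · exact integrable_const _
  · exact Eventually.of_forall fun x => h5.comp (continuous_id.sub continuous_const)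

/-- outside the support the smoothed densities tend to zero -/
theorem gg_tendsto (h : S_FEJ) {S : Set ℝ} (hS : IsClosed S) (hν : ν Sᶜ = 0) {y : ℝ} (hy : y ∉ S) :
    Tendsto (fun j => gg ν j y) atTop (𝓝 0) := by
  obtain ⟨d, hd, hball⟩ := Metric.isOpen_iff.1 hS.isOpen_compl y hy
  have hae : ∀ᵐ x ∂ν, x ∈ S := by
    rw [ae_iff]
    exact hν
  have hbd : ∀ j, gg ν j y ≤ 2 / d ^ 2 * (1 / 2) ^ j := by
    intro j
    have h1 : gg ν j y ≤ ∫ _x, (2 / d ^ 2 * (1 / 2) ^ j : ℝ) ∂ν := by
      refine integral_mono_ae (gg_integrable ν h j y) (integrable_const _) ?_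
      filter_upwards [hae] with x hx
      have h2 : d ≤ |y - x| := by
        by_contra hc
        rw [not_le] at hc
        have h3 : x ∈ Metric.ball y d := by
          rw [Metric.mem_ball, dist_comm, Real.dist_eq]
          exact hc
        exact hball h3 hx
      have h3 : y - x ≠ 0 := by
        intro h4
        rw [h4, abs_zero] at h2
        linarith
      have h4 := (h (2 ^ j) (by positivity)).2.2.1 (y - x) h3
      refine h4.trans ?_
      have h5 : d ^ 2 ≤ (y - x) ^ 2 := by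
        rw [← sq_abs (y - x)]
        exact pow_le_pow_left₀ hd.le h2 2
      have h6 : (2 : ℝ) / (2 ^ j * (y - x) ^ 2) ≤ 2 / (2 ^ j * d ^ 2) := by
        apply div_le_div_of_nonneg_left (by norm_num) (by positivity)
        exact mul_le_mul_of_nonneg_left h5 (by positivity)
      refine h6.trans (le_of_eq ?_)
      rw [div_pow, one_pow]
      field_simp
    simpa using h1
  refine squeeze_zero (fun j => gg_nonneg ν h j y) hbd ?_
  have h1 : Tendsto (fun j : ℕ => (2 / d ^ 2 : ℝ) * (1 / 2) ^ j) atTop (𝓝 (2 / d ^ 2 * 0)) :=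
    (tendsto_pow_atTop_nhds_zero_of_lt_one (by norm_num) (by norm_num)).const_mul _
  rwa [mul_zero] at h1

/-- the total mass of the smoothed densities -/
theorem gg_mass (h : S_FEJ) {Y : ℝ} (hY : 0 < Y) (hν : ν (Icc (-Y) Y)ᶜ = 0) (j : ℕ) :
    1 / 2 ≤ ∫ y in (-Y - 1)..(Y + 1), gg ν j y := by
  obtain ⟨h1, h2, _, h4, h5⟩ := h (2 ^ j) (by positivity)
  have hsw := swap_bdd ν (fun x y => Kf (2 ^ j) (y - x)) (by
    exact h5.comp (continuous_snd.sub continuous_fst)) (-Y - 1) (Y + 1) (2 ^ j) (by linarith)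
    (fun x ξ _ => by rw [abs_of_nonneg (h1 _)]; exact h2 _)
  have hgg : ∫ y in (-Y - 1)..(Y + 1), gg ν j y =
      ∫ x, (∫ y in (-Y - 1)..(Y + 1), Kf (2 ^ j) (y - x)) ∂ν := hsw.symm
  rw [hgg]
  have hae : ∀ᵐ x ∂ν, x ∈ Icc (-Y) Y := by
    rw [ae_iff]
    exact hν
  have hint : Integrable (fun x => ∫ y in (-Y - 1)..(Y + 1), Kf (2 ^ j) (y - x)) ν := by
    refine Integrable.of_bound (C := 2 ^ j * |(Y + 1) - (-Y - 1)|) ?_
      (Eventually.of_forall fun x => ?_)
    · apply Continuous.aestronglyMeasurable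
      apply intervalIntegral.continuous_parametric_intervalIntegral_of_continuous'
      exact h5.comp (continuous_snd.sub continuous_fst)
    · refine intervalIntegral.norm_integral_le_of_norm_le_const fun y _ => ?_
      rw [Real.norm_eq_abs, abs_of_nonneg (h1 _)]
      exact h2 _
  have h6 : ∫ _x, (1 / 2 : ℝ) ∂ν ≤ ∫ x, (∫ y in (-Y - 1)..(Y + 1), Kf (2 ^ j) (y - x)) ∂ν := by
    refine integral_mono_ae (integrable_const _) hint ?_
    filter_upwards [hae] with x hx
    have h2j : (1 : ℝ) / 2 ^ j ≤ 1 := by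
      rw [div_le_one (by positivity)]
      exact one_le_pow₀ (by norm_num)
    have h2j' : (0 : ℝ) < 1 / 2 ^ j := by positivity
    have hi : ∀ a b : ℝ, IntervalIntegrable (fun y => Kf (2 ^ j) (y - x)) volume a b := fun a b =>
      (h5.comp (continuous_id.sub continuous_const)).intervalIntegrable a b
    have h7 : ∫ y in (x - 1 / 2 ^ j)..(x + 1 / 2 ^ j), Kf (2 ^ j) (y - x) ≤
        ∫ y in (-Y - 1)..(Y + 1), Kf (2 ^ j) (y - x) := by
      apply intervalIntegral.integral_mono_interval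
      · linarith [hx.1]
      · linarith
      · linarith [hx.2]
      · exact Eventually.of_forall fun y => h1 _
      · exact hi _ _
    have h8 : ∫ _y in (x - 1 / 2 ^ j)..(x + 1 / 2 ^ j), ((2 : ℝ) ^ j / 4) ≤
        ∫ y in (x - 1 / 2 ^ j)..(x + 1 / 2 ^ j), Kf (2 ^ j) (y - x) := by
      apply intervalIntegral.integral_mono_on (by linarith) (by simp) (hi _ _)
      intro y hy
      apply h4
      rw [abs_le]
      constructor <;> linarith [hy.1, hy.2]
    rw [intervalIntegral.integral_const, smul_eq_mul] at h8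
    have h9 : (x + 1 / 2 ^ j - (x - 1 / 2 ^ j)) * ((2 : ℝ) ^ j / 4) = 1 / 2 := by
      field_simp
      ring
    rw [h9] at h8
    exact h8.trans h7
  simpa using h6

end

theorem t_TOP (h : S_FEJ) : S_TOP := by
  intro ν Y M c S hP hY hM hc hνY hS hνS hI1 hI2
  rw [← not_not (a := (interior S).Nonempty)]
  intro hcon
  rw [not_nonempty_iff_eq_empty] at hcon
  have hdense : Dense Sᶜ := interior_eq_empty_iff_dense_compl.1 hcon
  set r : ℝ := (2 : ℝ) ^ (-c) with hr
  have hr0 : 0 < r := Real.rpow_pos_of_pos (by norm_num) _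
  have hr1 : r < 1 := Real.rpow_lt_one_of_one_lt_of_neg (by norm_num) (by linarith)
  have hpow : ∀ k : ℕ, ((2 : ℝ) ^ k) ^ (-c) = r ^ k := by
    intro k
    rw [hr, ← Real.rpow_natCast, ← Real.rpow_natCast, ← Real.rpow_mul (by norm_num),
      ← Real.rpow_mul (by norm_num), mul_comm]
  -- the differences
  let V : ℕ → ℝ → ℝ := fun j y => 2 * gg ν (j + 1) y - gg ν j y
  have hVstep : ∀ y j, dist (V j y) (V (j + 1) y) ≤ 2 * M * r ^ j := by
    intro y j
    rw [dist_comm, Real.dist_eq]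
    have h1 : V (j + 1) y - V j y = _ := V_step ν j y
    rw [h1]
    have h2 := hI1 j y
    have h3 := hI2 (j + 1) y
    rw [hpow] at h2 h3
    have h4 := Complex.abs_re_le_norm (∫ ξ in ((2 : ℝ) ^ j)..(2 * 2 ^ j),
      ((ξ / 2 ^ j - 1 : ℝ) : ℂ) * (ch ν ξ * e (-(y * ξ))))
    have h5 := Complex.abs_re_le_norm (∫ ξ in ((2 : ℝ) ^ (j + 1))..(2 * 2 ^ (j + 1)),
      ((2 - ξ / 2 ^ (j + 1) : ℝ) : ℂ) * (ch ν ξ * e (-(y * ξ))))
    have h6 : r ^ (j + 1) ≤ r ^ j := pow_le_pow_of_le_one hr0.le hr1.le (Nat.le_succ j)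
    have h7 : M * r ^ (j + 1) ≤ M * r ^ j := mul_le_mul_of_nonneg_left h6 hM.le
    refine (abs_add_le _ _).trans ?_
    linarith
  have hVS : ∀ j, ∀ y ∈ Sᶜ, |V j y| ≤ 2 * M * r ^ j / (1 - r) := by
    intro j y hy
    have h1 := gg_tendsto ν h hS hνS hy
    have h2 : Tendsto (fun j => V j y) atTop (𝓝 0) := by
      have h3 := ((h1.comp (tendsto_add_atTop_nat 1)).const_mul 2).sub h1
      rw [mul_zero, sub_zero] at h3
      exact h3
    have h3 := dist_le_of_le_geometric_of_tendsto r (2 * M) hr1 (hVstep y) h2 j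
    rwa [Real.dist_eq, sub_zero] at h3
  have hVcont : ∀ j, Continuous (V j) := fun j =>
    ((gg_cont ν h (j + 1)).const_mul 2).sub (gg_cont ν h j)
  have hV : ∀ j y, |V j y| ≤ 2 * M * r ^ j / (1 - r) := by
    intro j y
    have hcl : IsClosed {y | |V j y| ≤ 2 * M * r ^ j / (1 - r)} :=
      isClosed_le (hVcont j).abs continuous_const
    have h1 : closure Sᶜ ⊆ {y | |V j y| ≤ 2 * M * r ^ j / (1 - r)} :=
      hcl.closure_subset_iff.2 (hVS j)
    exact h1 (hdense y)
  -- the geometric bound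
  set T : ℝ := 2 * M / (1 - r) with hT
  have hT0 : 0 < T := div_pos (by linarith) (by linarith)
  obtain ⟨ρ, hρ1, hρ2⟩ := exists_between (max_lt hr1 (by norm_num : (1 / 2 : ℝ) < 1))
  have hρr : r < ρ := lt_of_le_of_lt (le_max_left _ _) hρ1
  have hρh : 1 / 2 < ρ := lt_of_le_of_lt (le_max_right _ _) hρ1
  have hρ0 : 0 < ρ := by linarith
  let C : ℝ := max 1 (T / (2 * ρ - 1))
  have hC1 : 1 ≤ C := le_max_left _ _
  have hC2 : T ≤ C * (2 * ρ - 1) := by
    have h1 : T / (2 * ρ - 1) ≤ C := le_max_right _ _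
    rwa [div_le_iff₀ (by linarith)] at h1
  have hbound : ∀ j y, gg ν j y ≤ C * ρ ^ j := by
    intro j
    induction j with
    | zero =>
      intro y
      rw [pow_zero, mul_one]
      exact (gg_zero_le ν h y).trans hC1
    | succ j ih =>
      intro y
      have h1 := (abs_le.1 (hV j y)).2
      have h2 : V j y = 2 * gg ν (j + 1) y - gg ν j y := rfl
      have h3 : 2 * M * r ^ j / (1 - r) = T * r ^ j := by
        rw [hT]
        ring
      have h4 : T * r ^ j ≤ T * ρ ^ j :=
        mul_le_mul_of_nonneg_left (pow_le_pow_left₀ hr0.le hρr.le j) hT0.le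
      have h5 := ih y
      have h6 : 0 < ρ ^ j := by positivity
      have h7 : T * ρ ^ j ≤ C * (2 * ρ - 1) * ρ ^ j := mul_le_mul_of_nonneg_right hC2 h6.le
      rw [pow_succ]
      nlinarith
  -- the contradiction
  have hlow : ∀ j : ℕ, 1 / 2 ≤ C * ρ ^ j * (2 * Y + 2) := by
    intro j
    refine (gg_mass ν h hY hνY j).trans ?_
    have h1 : ∫ y in (-Y - 1)..(Y + 1), gg ν j y ≤ ∫ _y in (-Y - 1)..(Y + 1), C * ρ ^ j := by
      apply intervalIntegral.integral_mono_on (by linarith)
      · exact (gg_cont ν h j).intervalIntegrable _ _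
      · simp
      · intro y _
        exact hbound j y
    rw [intervalIntegral.integral_const, smul_eq_mul] at h1
    refine h1.trans (le_of_eq ?_)
    ring
  have hlim : Tendsto (fun j : ℕ => C * ρ ^ j * (2 * Y + 2)) atTop (𝓝 (C * 0 * (2 * Y + 2))) :=
    ((tendsto_pow_atTop_nhds_zero_of_lt_one hρ0.le hρ2).const_mul C).mul_const _
  have h1 := ge_of_tendsto' hlim hlow
  norm_num at h1

end Pool.Agent.Q125.DS
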